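import Pool.Agent.W401.Cheb.Main

/-!
# Natural densities of sets of primes defined by Frobenius elements

A convenient form of Chebotarev's theorem (`Pool.Agent.W401.Cheb.chebotarev`).
-/

set_option autoImplicit false

namespace Q283.TW

open NumberField Filter Topology Finset Pool.Agent.W401.Cheb

section
variable (L : Type) [Field L] [NumberField L] [IsGalois ℚ L]

/-- the number of homomorphisms with a given Frobenius, summed over all elements -/
theorem sum_xp (p : ℕ) [hp : Fact p.Prime] (h : TorAt L p) :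
    ∑ g : Gal(L/ℚ), xp L g p = Nat.card Gal(L/ℚ) := by
  classical
  have hfin := finite_hom h
  have e : (Σ g : Gal(L/ℚ), {φ : 𝓞 L →+* AlgebraicClosure (ZMod p) // HasFrob p φ g}) ≃
      (𝓞 L →+* AlgebraicClosure (ZMod p)) := by
    refine Equiv.ofBijective (fun x => x.2.1) ⟨?_, ?_⟩
    · rintro ⟨g, φ, hφ⟩ ⟨g', φ', hφ'⟩ he
      simp only at he
      subst he
      have : g = g' := frob_unique h hφ hφ'
      subst this
      rfl
    · intro φ
      obtain ⟨g, hg⟩ := exists_frob h φ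
      exact ⟨⟨g, φ, hg⟩, rfl⟩
  rw [← h.1, ← Nat.card_congr e]
  have : ∀ g : Gal(L/ℚ), Finite {φ : 𝓞 L →+* AlgebraicClosure (ZMod p) // HasFrob p φ g} :=
    fun g => inferInstance
  rw [Nat.card_sigma]
  refine Finset.sum_congr rfl fun g _ => ?_
  unfold xp
  rw [dif_pos hp.out]

open scoped Classical in
/-- **Density of a Frobenius set.** -/
theorem dens_of (C : Set Gal(L/ℚ)) (T : ℕ → Prop) (D₀ : ℕ) (hD₀ : 0 < D₀)
    (hT : ∀ (p : ℕ) [Fact p.Prime], ¬ p ∣ D₀ →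
      ∀ (φ : 𝓞 L →+* AlgebraicClosure (ZMod p)) (g : Gal(L/ℚ)), HasFrob p φ g → (T p ↔ g ∈ C)) :
    Tendsto (M fun p => if T p then 1 else 0) atTop
      (𝓝 ((Nat.card C : ℝ) / (Nat.card Gal(L/ℚ) : ℝ))) := by
  obtain ⟨D₁, hD₁, htor⟩ := torsor L
  have hG : (Nat.card Gal(L/ℚ) : ℝ) ≠ 0 := by
    have := Nat.card_pos (α := Gal(L/ℚ))
    positivity
  have key : ∀ p : ℕ, p.Prime → ¬ p ∣ D₀ * D₁ → (if T p then (1 : ℝ) else 0) =
      (Nat.card Gal(L/ℚ) : ℝ)⁻¹ * ∑ g ∈ C.toFinset, (xp L g p : ℝ) := by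
    intro p hp hpD
    haveI : Fact p.Prime := ⟨hp⟩
    have h0 : ¬ p ∣ D₀ := fun h => hpD (h.mul_right _)
    have h1 : ¬ p ∣ D₁ := fun h => hpD (h.mul_left _)
    have ht := htor p h1
    have hx : ∀ g : Gal(L/ℚ), ¬ (T p ↔ g ∈ C) → xp L g p = 0 := by
      intro g hg
      unfold xp
      rw [dif_pos hp]
      rw [Nat.card_eq_zero]
      left
      rw [isEmpty_subtype]
      intro φ hφ
      exact hg (hT p h0 φ g hφ)
    by_cases hTp : T p
    · rw [if_pos hTp]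
      have h2 : ∑ g ∈ C.toFinset, xp L g p = ∑ g : Gal(L/ℚ), xp L g p := by
        apply Finset.sum_subset (Finset.subset_univ _)
        intro g _ hg
        rw [Set.mem_toFinset] at hg
        exact hx g (fun h => hg (h.1 hTp))
      have h3 : ∑ g ∈ C.toFinset, (xp L g p : ℝ) = (Nat.card Gal(L/ℚ) : ℝ) := by
        rw [← sum_xp L p ht, ← h2]
        push_cast
        rfl
      rw [h3, inv_mul_cancel₀ hG]
    · rw [if_neg hTp]
      have h2 : ∑ g ∈ C.toFinset, (xp L g p : ℝ) = 0 := by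
        apply Finset.sum_eq_zero
        intro g hg
        rw [Set.mem_toFinset] at hg
        rw [hx g (fun h => hTp (h.2 hg))]
        simp
      rw [h2, mul_zero]
  refine M_congr (Nat.mul_pos hD₀ hD₁) key ?_
  have h4 : ∀ N, M (fun p => (Nat.card Gal(L/ℚ) : ℝ)⁻¹ * ∑ g ∈ C.toFinset, (xp L g p : ℝ)) N
      = (Nat.card Gal(L/ℚ) : ℝ)⁻¹ * ∑ g ∈ C.toFinset, M (fun p => (xp L g p : ℝ)) N := by
    intro N
    rw [M_smul, M_sum]
  have h5 : Tendsto (fun N => (Nat.card Gal(L/ℚ) : ℝ)⁻¹ *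
      ∑ g ∈ C.toFinset, M (fun p => (xp L g p : ℝ)) N) atTop
      (𝓝 ((Nat.card Gal(L/ℚ) : ℝ)⁻¹ * ∑ _g ∈ C.toFinset, 1)) :=
    (tendsto_finset_sum _ fun g _ => chebotarev L g).const_mul _
  have h6 : (Nat.card Gal(L/ℚ) : ℝ)⁻¹ * ∑ _g ∈ C.toFinset, (1 : ℝ)
      = (Nat.card C : ℝ) / (Nat.card Gal(L/ℚ) : ℝ) := by
    rw [Finset.sum_const, nsmul_eq_mul, mul_one, Set.toFinset_card, ← Nat.card_eq_fintype_card,
      div_eq_inv_mul]
  rw [h6] at h5
  exact h5.congr fun N => (h4 N).symm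

end

end Q283.TW
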