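import Pool.Agent.W401.Cheb.Grp
import Pool.Agent.Y700.Defs2

/-!
# Frobenius elements and square roots
-/

set_option autoImplicit false
set_option linter.unusedSectionVars false

namespace Q283.TW

open NumberField Pool.Agent.W401.Cheb

section
variable {p : ℕ} [hp : Fact p.Prime]

/-- the elements of the algebraic closure fixed by Frobenius -/
theorem fixed_iff (x : AlgebraicClosure (ZMod p)) :
    x ^ p = x ↔ ∃ z : ZMod p, algebraMap (ZMod p) (AlgebraicClosure (ZMod p)) z = x := by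
  constructor
  · intro h
    have h1 : x ∈ (⊥ : Subfield (AlgebraicClosure (ZMod p))) :=
      (Subfield.mem_bot_iff_pow_eq_self _ p).2 h
    rw [mem_bot_iff_intCast p] at h1
    obtain ⟨n, hn⟩ := h1
    exact ⟨(n : ZMod p), by rw [map_intCast]; exact hn⟩
  · rintro ⟨z, rfl⟩
    rw [← map_pow, ZMod.pow_card]

theorem cast_inj {a b : ZMod p} (h : algebraMap (ZMod p) (AlgebraicClosure (ZMod p)) a =
    algebraMap (ZMod p) (AlgebraicClosure (ZMod p)) b) : a = b :=
  (algebraMap (ZMod p) (AlgebraicClosure (ZMod p))).injective h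

theorem two_ne (h2 : p ≠ 2) : (2 : AlgebraicClosure (ZMod p)) ≠ 0 := by
  intro h
  have h1 : algebraMap (ZMod p) (AlgebraicClosure (ZMod p)) 2 =
      algebraMap (ZMod p) (AlgebraicClosure (ZMod p)) 0 := by
    rw [map_ofNat, map_zero]; exact h
  have h3 : ((2 : ℕ) : ZMod p) = 0 := by exact_mod_cast cast_inj h1
  rw [ZMod.natCast_eq_zero_iff] at h3
  exact h2 ((Nat.prime_dvd_prime_iff_eq hp.out Nat.prime_two).1 h3)

variable {L : Type} [Field L] [NumberField L] [IsGalois ℚ L]

theorem coe_smul' (σ : Gal(L/ℚ)) (x : 𝓞 L) :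
    algebraMap (𝓞 L) L (σ • x) = σ (algebraMap (𝓞 L) L x) := rfl

/-- an element whose square is an integer is integral -/
theorem isInt_sqrt {s : L} {a : ℤ} (hs : s ^ 2 = a) : IsIntegral ℤ s := by
  have h : IsIntegral ℤ (s ^ 2) := by rw [hs]; exact isIntegral_algebraMap (R := ℤ) (x := a)
  exact IsIntegral.of_pow (by norm_num) h

theorem gal_sqrt (g : Gal(L/ℚ)) {s : L} {a : ℤ} (hs : s ^ 2 = a) : g s = s ∨ g s = -s := by
  have h : (g s) ^ 2 = s ^ 2 := by rw [← map_pow, hs, map_intCast]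
  exact sq_eq_sq_iff_eq_or_eq_neg.1 h

/-- **Frobenius and square roots.** -/
theorem frob_sqrt {φ : 𝓞 L →+* AlgebraicClosure (ZMod p)} {g : Gal(L/ℚ)} (hφ : HasFrob p φ g)
    {s : L} {a : ℤ} (hs : s ^ 2 = a) (h2 : p ≠ 2) (ha : (a : ZMod p) ≠ 0) :
    IsSquare (a : ZMod p) ↔ g s = s := by
  obtain ⟨S, hS⟩ : ∃ S : 𝓞 L, algebraMap (𝓞 L) L S = s := ⟨⟨s, isInt_sqrt hs⟩, rfl⟩
  have hinj : Function.Injective (algebraMap (𝓞 L) L) := RingOfIntegers.coe_injective
  have hS2 : S ^ 2 = (a : 𝓞 L) := by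
    apply hinj
    rw [map_pow, map_intCast, hS, hs]
  have hφ2 : φ S ^ 2 = algebraMap (ZMod p) (AlgebraicClosure (ZMod p)) a := by
    rw [← map_pow, hS2, map_intCast, map_intCast]
  have hne : φ S ≠ 0 := by
    intro h
    rw [h, zero_pow (by norm_num)] at hφ2
    apply ha
    apply cast_inj
    rw [← hφ2, map_zero]
  constructor
  · rintro ⟨z, hz⟩
    rcases gal_sqrt g hs with h | h
    · exact h
    · exfalso
      have h1 : (φ S) ^ p = φ S := by
        rw [fixed_iff]
        have h3 : φ S ^ 2 = (algebraMap (ZMod p) (AlgebraicClosure (ZMod p)) z) ^ 2 := by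
          rw [hφ2, hz, map_mul, sq]
        rcases sq_eq_sq_iff_eq_or_eq_neg.1 h3 with h4 | h4
        · exact ⟨z, h4.symm⟩
        · exact ⟨-z, by rw [map_neg]; exact h4.symm⟩
      have h5 : g • S = -S := by
        apply hinj
        rw [coe_smul', hS, h, map_neg, hS]
      have h6 := hφ S
      rw [h5, map_neg, h1] at h6
      have h7 : 2 * φ S = 0 := by linear_combination -h6
      rcases mul_eq_zero.1 h7 with h8 | h8
      · exact two_ne h2 h8
      · exact hne h8
  · intro h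
    have h5 : g • S = S := by
      apply hinj
      rw [coe_smul', hS, h]
    have h6 := hφ S
    rw [h5] at h6
    obtain ⟨z, hz⟩ := (fixed_iff _).1 h6.symm
    refine ⟨z, ?_⟩
    apply cast_inj
    rw [← hφ2, ← hz, map_mul, sq]

/-- the element `θ = √((1+√-7)/2)` -/
theorem theta_int {θ : L} (hθ : θ ^ 4 - θ ^ 2 + 2 = 0) : IsIntegral ℤ θ := by
  refine ⟨Polynomial.X ^ 4 - Polynomial.X ^ 2 + 2, ?_, ?_⟩
  · monicity!
  · simp
    linear_combination hθ

theorem gal_theta (g : Gal(L/ℚ)) {θ s : L} (hθ : θ ^ 4 - θ ^ 2 + 2 = 0) (hs : s ^ 2 = -7)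
    (hg : g s = s) : g θ = θ ∨ g θ = -θ := by
  have h1 : (2 * θ ^ 2 - 1) ^ 2 = s ^ 2 := by rw [hs]; linear_combination 4 * hθ
  have h2 : g (2 * θ ^ 2 - 1) = 2 * θ ^ 2 - 1 := by
    rcases sq_eq_sq_iff_eq_or_eq_neg.1 h1 with h | h
    · rw [h, hg]
    · rw [h, map_neg, hg]
  have h3 : (g θ) ^ 2 = θ ^ 2 := by
    rw [map_sub, map_mul, map_pow, map_one, map_ofNat] at h2
    have h4 : (2 : L) * ((g θ) ^ 2 - θ ^ 2) = 0 := by linear_combination h2
    rcases mul_eq_zero.1 h4 with h5 | h5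
    · norm_num at h5
    · linear_combination h5
  exact sq_eq_sq_iff_eq_or_eq_neg.1 h3

open Pool.Agent.Y700 (Rt)

/-- **Frobenius and the number `x(p)`.** -/
theorem frob_theta {φ : 𝓞 L →+* AlgebraicClosure (ZMod p)} {g : Gal(L/ℚ)} (hφ : HasFrob p φ g)
    {θ s : L} (hθ : θ ^ 4 - θ ^ 2 + 2 = 0) (hs : s ^ 2 = -7) (hg : g s = s) (h2 : p ≠ 2)
    (hsq : IsSquare (2 : ZMod p)) : Rt p 1 ↔ g θ = -θ := by
  obtain ⟨Θ, hΘ⟩ : ∃ S : 𝓞 L, algebraMap (𝓞 L) L S = θ := ⟨⟨θ, theta_int hθ⟩, rfl⟩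
  have hinj : Function.Injective (algebraMap (𝓞 L) L) := RingOfIntegers.coe_injective
  have h1 : Θ ^ 4 - Θ ^ 2 + 2 = 0 := by
    apply hinj
    rw [map_add, map_sub, map_pow, map_pow, map_ofNat, map_zero, hΘ, hθ]
  set ι := algebraMap (ZMod p) (AlgebraicClosure (ZMod p)) with hι
  set t := φ Θ with ht
  have ht4 : t ^ 4 - t ^ 2 + 2 = 0 := by
    rw [ht, ← map_pow, ← map_pow, ← map_sub, ← map_ofNat φ 2, ← map_add, h1, map_zero]
  have h20 := two_ne (p := p) h2
  have ht0 : t ≠ 0 := by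
    intro h; rw [h] at ht4; norm_num at ht4; exact h20 ht4
  have hθ0 : θ ≠ 0 := by
    intro h; rw [h] at hθ; norm_num at hθ
  rcases gal_theta g hθ hs hg with hgt | hgt
  · -- g θ = θ
    have hno : ¬ (g θ = -θ) := by
      rw [hgt]
      intro h
      apply hθ0
      have : (2 : L) * θ = 0 := by linear_combination h
      rcases mul_eq_zero.1 this with h5 | h5
      · norm_num at h5
      · exact h5
    have h5 : g • Θ = Θ := by
      apply hinj
      rw [coe_smul', hΘ, hgt]
    have h6 := hφ Θ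
    rw [h5] at h6
    obtain ⟨z, hz⟩ := (fixed_iff _).1 h6.symm
    refine ⟨fun hR => ?_, fun h => absurd h hno⟩
    exfalso
    have hz4 : z ^ 4 - z ^ 2 + 2 = 0 := by
      apply cast_inj
      rw [map_zero, map_add, map_sub, map_pow, map_pow, hz, map_ofNat]
      exact ht4
    refine hR (7 * z ^ 2 - 10) ?_ ⟨z ^ 7, ?_⟩
    · push_cast
      linear_combination (49 : ZMod p) * hz4
    · have : z ^ 7 * z ^ 7 - (7 * z ^ 2 - 10) = (z ^ 10 + z ^ 8 - z ^ 6 - 3 * z ^ 4 - z ^ 2 + 5)
          * (z ^ 4 - z ^ 2 + 2) := by ring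
      rw [hz4, mul_zero] at this
      linear_combination -this
  · -- g θ = -θ
    refine ⟨fun _ => hgt, fun _ => ?_⟩
    intro x hx hxsq
    have h5 : g • Θ = -Θ := by
      apply hinj
      rw [coe_smul', hΘ, hgt, map_neg, hΘ]
    have h6 := hφ Θ
    rw [h5, map_neg, ← ht] at h6
    -- h6 : -t = t ^ p
    obtain ⟨y, hy⟩ := hxsq
    obtain ⟨c, hc⟩ := hsq
    have hx' : (ι x) ^ 2 + 13 * ι x + 128 = 0 := by
      have := congrArg ι hx
      push_cast at this
      simp only [map_add, map_mul, map_pow, map_ofNat, map_zero, map_one] at this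
      linear_combination this
    have hroot : (ι x - (7 * t ^ 2 - 10)) * (ι x - (7 * (1 - t ^ 2) - 10)) = 0 := by
      linear_combination hx' - 49 * ht4
    have h14 : t ^ 14 = 7 * t ^ 2 - 10 := by
      have : t ^ 14 - (7 * t ^ 2 - 10) = (t ^ 10 + t ^ 8 - t ^ 6 - 3 * t ^ 4 - t ^ 2 + 5)
          * (t ^ 4 - t ^ 2 + 2) := by ring
      rw [ht4, mul_zero] at this
      linear_combination this
    have ht7 : (t ^ 7) ^ p = -(t ^ 7) := by
      rw [← pow_mul, mul_comm, pow_mul, ← h6]; ring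
    have hbad : ∀ w : ZMod p, t ^ 7 = ι w → False := by
      intro w hw
      have h7 : (t ^ 7) ^ p = t ^ 7 := (fixed_iff _).2 ⟨w, hw.symm⟩
      rw [ht7] at h7
      have h8 : 2 * t ^ 7 = 0 := by linear_combination -h7
      rcases mul_eq_zero.1 h8 with h9 | h9
      · exact h20 h9
      · exact pow_ne_zero 7 ht0 h9
    have hyx : ι x = (ι y) ^ 2 := by rw [hy, map_mul, sq]
    rcases mul_eq_zero.1 hroot with h8 | h8
    · have h9 : (t ^ 7) ^ 2 = (ι y) ^ 2 := by
        rw [← hyx, ← pow_mul]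
        norm_num
        rw [h14]
        linear_combination -h8
      rcases sq_eq_sq_iff_eq_or_eq_neg.1 h9 with h10 | h10
      · exact hbad y h10
      · exact hbad (-y) (by rw [map_neg]; exact h10)
    · -- the other root: ι x * t ^ 14 = 128 = (8 c) ^ 2
      have h9 : ι x * t ^ 14 = 128 := by
        rw [h14]
        have e1 : ι x = 7 * (1 - t ^ 2) - 10 := by linear_combination h8
        rw [e1]
        linear_combination (-49 : AlgebraicClosure (ZMod p)) * ht4
      have hc' : (2 : AlgebraicClosure (ZMod p)) = (ι c) ^ 2 := by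
        have := congrArg ι hc
        rw [map_ofNat, map_mul] at this
        rw [this, sq]
      have h11 : (ι y * t ^ 7) ^ 2 = (8 * ι c) ^ 2 := by
        have : (8 * ι c) ^ 2 = 64 * (ι c) ^ 2 := by ring
        rw [this, ← hc', mul_pow, ← hyx, ← pow_mul]
        norm_num
        exact h9
      have hy0 : ι y ≠ 0 := by
        intro h
        rw [h] at h11
        have h12 : (8 * ι c) ^ 2 = 0 := by rw [← h11]; ring
        have h13 : (8 * ι c) ^ 2 = 2 ^ 7 := by
          have : (8 * ι c) ^ 2 = 64 * (ι c) ^ 2 := by ring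
          rw [this, ← hc']; norm_num
        rw [h13] at h12
        exact pow_ne_zero 7 h20 h12
      have hy00 : y ≠ 0 := by rintro rfl; exact hy0 (map_zero _)
      rcases sq_eq_sq_iff_eq_or_eq_neg.1 h11 with h12 | h12
      · refine hbad (8 * c / y) ?_
        rw [map_div₀, map_mul, map_ofNat, eq_div_iff hy0]
        linear_combination h12
      · refine hbad (-(8 * c) / y) ?_
        rw [map_div₀, map_neg, map_mul, map_ofNat, eq_div_iff hy0]
        linear_combination h12

end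

end Q283.TW
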