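import Mathlib

/-!
# A Galois extension of the rationals with given square roots and a root of `X ^ 4 - X ^ 2 + 2`
-/

set_option autoImplicit false

namespace Q283.TW

open Polynomial

theorem gen_split (K : Type) [Field K] [CharZero K] (f : K[X]) : ∃ (L : Type) (_ : Field L)
    (_ : Algebra K L), FiniteDimensional K L ∧ IsGalois K L ∧
      (f.map (algebraMap K L)).Splits := by
  refine ⟨SplittingField f, inferInstance, inferInstance, ?_, ?_, SplittingField.splits f⟩
  · exact IsSplittingField.finiteDimensional (SplittingField f) f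
  · have hnor0 := (Normal.of_isSplittingField (F := K) (E := SplittingField f) f)
    exact { to_isSeparable := inferInstance, to_normal := hnor0 }

theorem gen_split_rat (f : ℚ[X]) : ∃ (L : Type) (_ : Field L) (_ : NumberField L)
    (_ : IsGalois ℚ L), (f.map (algebraMap ℚ L)).Splits := by
  obtain ⟨L, hL, hA, hfd, hgal, hsp⟩ := gen_split ℚ f
  have hinj : Function.Injective (algebraMap ℚ L) := (algebraMap ℚ L).injective
  have hcz : CharZero L := charZero_of_injective_algebraMap hinj
  have hAA : hA = DivisionRing.toRatAlgebra := Subsingleton.elim _ _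
  subst hAA
  exact ⟨L, hL, { to_charZero := hcz, to_finiteDimensional := hfd }, hgal, hsp⟩

theorem exists_field (T : Finset ℤ) : ∃ (L : Type) (_ : Field L) (_ : NumberField L)
    (_ : IsGalois ℚ L) (s : ℤ → L) (θ : L), θ ^ 4 - θ ^ 2 + 2 = 0 ∧
      ∀ a ∈ T, (s a) ^ 2 = (a : L) := by
  classical
  set h : ℚ[X] := X ^ 4 - X ^ 2 + 2 with hh
  set q : ℤ → ℚ[X] := fun a => X ^ 2 - C (a : ℚ) with hq
  set f : ℚ[X] := h * ∏ a ∈ T, q a with hf
  have hhd : h.natDegree = 4 := by rw [hh]; compute_degree!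
  have hqd : ∀ a, (q a).natDegree = 2 := by intro a; rw [hq]; exact natDegree_X_pow_sub_C
  have hh0 : h ≠ 0 := by intro h0; rw [h0] at hhd; simp at hhd
  have hq0 : ∀ a, q a ≠ 0 := by intro a h0; have := hqd a; rw [h0] at this; simp at this
  have hf0 : f ≠ 0 := mul_ne_zero hh0 (Finset.prod_ne_zero_iff.2 fun a _ => hq0 a)
  obtain ⟨L, hL, hN, hG, hsp⟩ := gen_split_rat f
  have hfm : f.map (algebraMap ℚ L) ≠ 0 := by
    rwa [Ne, Polynomial.map_eq_zero]
  have key : ∀ g : ℚ[X], g ∣ f → g.natDegree ≠ 0 →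
      ∃ x : L, (g.map (algebraMap ℚ L)).eval x = 0 := by
    intro g hg hd
    have h1 := hsp.of_dvd hfm (Polynomial.map_dvd _ hg)
    refine h1.exists_eval_eq_zero ?_
    rw [Polynomial.degree_map]
    intro h2
    exact hd (natDegree_eq_of_degree_eq_some h2)
  obtain ⟨θ, hθ⟩ := key h (Dvd.intro _ rfl) (by rw [hhd]; norm_num)
  have hs : ∀ a : ℤ, ∃ x : L, a ∈ T → x ^ 2 = (a : L) := by
    intro a
    by_cases ha : a ∈ T
    · obtain ⟨x, hx⟩ := key (q a) ((Finset.dvd_prod_of_mem q ha).mul_left _)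
        (by rw [hqd]; norm_num)
      refine ⟨x, fun _ => ?_⟩
      rw [hq] at hx
      simp at hx
      linear_combination hx
    · exact ⟨0, fun h => absurd h ha⟩
  choose s hs' using hs
  refine ⟨L, hL, hN, hG, s, θ, ?_, fun a ha => hs' a ha⟩
  rw [hh] at hθ
  simp at hθ
  exact hθ

end Q283.TW
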