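import Mathlib

/-!
# Quadratic symbols, and primes with given symbols
-/

set_option autoImplicit false

namespace Q283.TW

open Finset

/-- primes congruent to `1` modulo `8` that split in `ℚ(√-7)` -/
def Spl (p : ℕ) : Prop := p.Prime ∧ p % 8 = 1 ∧ (p % 7 = 1 ∨ p % 7 = 2 ∨ p % 7 = 4)

theorem jac_q7 : ∀ r : ℕ, r < 7 → ((r = 1 ∨ r = 2 ∨ r = 4) → jacobiSym ((r : ℕ) : ℤ) 7 = 1) ∧
    ((r = 3 ∨ r = 5 ∨ r = 6) → jacobiSym ((r : ℕ) : ℤ) 7 = -1) := by
  intro r hr
  interval_cases r <;> norm_num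

/-- the symbol of `-7` -/
theorem jac_neg7 {q : ℕ} (hq : q % 2 = 1) : jacobiSym (-7) q = jacobiSym ((q % 7 : ℕ) : ℤ) 7 := by
  have hodd : Odd q := Nat.odd_iff.2 hq
  have h0 : jacobiSym (-7) q = jacobiSym (q : ℤ) 7 := by
    rw [show (-7 : ℤ) = -1 * ((7 : ℕ) : ℤ) by norm_num, jacobiSym.mul_left,
      jacobiSym.at_neg_one hodd]
    rcases (by omega : q % 4 = 1 ∨ q % 4 = 3) with h5 | h5
    · rw [ZMod.χ₄_nat_one_mod_four h5, one_mul]
      have h6 := jacobiSym.quadratic_reciprocity_one_mod_four h5 (b := 7) (by decide)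
      exact h6.symm
    · rw [ZMod.χ₄_nat_three_mod_four h5,
        jacobiSym.quadratic_reciprocity_three_mod_four (by norm_num) h5]
      ring
  rw [h0, jacobiSym.mod_left]
  push_cast
  rfl

theorem neg7_iff (p : ℕ) [hp : Fact p.Prime] (h2 : p ≠ 2) (h7 : p ≠ 7) :
    IsSquare (-7 : ZMod p) ↔ (p % 7 = 1 ∨ p % 7 = 2 ∨ p % 7 = 4) := by
  have hodd : p % 2 = 1 := hp.out.eq_two_or_odd.resolve_left h2
  have h1 := jac_neg7 hodd
  have h3 : p % 7 ≠ 0 := by
    intro h
    have := (Nat.prime_dvd_prime_iff_eq (by norm_num) hp.out).1 (Nat.dvd_of_mod_eq_zero h)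
    exact h7 this.symm
  have hlt : p % 7 < 7 := Nat.mod_lt _ (by norm_num)
  have h4 := jac_q7 (p % 7) hlt
  have h70 : (((-7 : ℤ) : ℤ) : ZMod p) ≠ 0 := by
    intro h
    rw [ZMod.intCast_zmod_eq_zero_iff_dvd] at h
    have h5 : p ∣ 7 := by
      have := Int.natAbs_dvd_natAbs.2 h
      simpa using this
    exact h7 ((Nat.prime_dvd_prime_iff_eq hp.out (by norm_num)).1 h5)
  rw [← jacobiSym.legendreSym.to_jacobiSym] at h1
  have h5 : IsSquare (-7 : ZMod p) ↔ legendreSym p (-7) = 1 := by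
    rw [legendreSym.eq_one_iff p h70]
    push_cast
    rfl
  rw [h5, h1]
  constructor
  · intro h
    by_contra hc
    have := h4.2 (by omega)
    rw [this] at h
    norm_num at h
  · exact h4.1

/-- a prime is split if and only if `-1`, `2`, `-7` are squares -/
theorem spl_iff (p : ℕ) [hp : Fact p.Prime] (h2 : p ≠ 2) (h7 : p ≠ 7) :
    Spl p ↔ IsSquare (-1 : ZMod p) ∧ IsSquare (2 : ZMod p) ∧ IsSquare (-7 : ZMod p) := by
  have hodd : p % 2 = 1 := hp.out.eq_two_or_odd.resolve_left h2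
  rw [neg7_iff p h2 h7, ZMod.exists_sq_eq_neg_one_iff, ZMod.exists_sq_eq_two_iff h2]
  unfold Spl
  constructor
  · rintro ⟨-, h8, h⟩
    exact ⟨by omega, by omega, h⟩
  · rintro ⟨h4, h8, h⟩
    exact ⟨hp.out, by omega, h⟩

theorem exists_nonres (r : ℕ) (hr : r.Prime) (h2 : r ≠ 2) : ∃ a : ℕ, ¬ IsSquare (a : ZMod r) := by
  haveI : Fact r.Prime := ⟨hr⟩
  have h : ringChar (ZMod r) ≠ 2 := by
    rw [ZMod.ringChar_zmod_n]; exact h2
  obtain ⟨x, hx⟩ := FiniteField.exists_nonsquare h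
  refine ⟨x.val, ?_⟩
  rwa [ZMod.natCast_zmod_val]

/-- **Primes with given symbols**, `1` modulo `56`. -/
theorem exists_prime_symbols (R : Finset ℕ) (hR : ∀ r ∈ R, r.Prime ∧ r ≠ 2 ∧ r ≠ 7)
    (ε : ℕ → Prop) (B : ℕ) : ∃ p, B < p ∧ p.Prime ∧ p % 56 = 1 ∧
      ∀ r ∈ R, (IsSquare (r : ZMod p) ↔ ε r) := by
  classical
  have hex : ∀ r : ℕ, ∃ a : ℕ, (r ∈ R → (IsSquare (a : ZMod r) ↔ ε r) ∧ Nat.Coprime a r) := by
    intro r
    by_cases hr : r ∈ R
    · by_cases he : ε r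
      · exact ⟨1, fun _ => ⟨⟨fun _ => he, fun _ => by simp⟩, Nat.coprime_one_left r⟩⟩
      · obtain ⟨a, ha⟩ := exists_nonres r (hR r hr).1 (hR r hr).2.1
        refine ⟨a, fun _ => ⟨⟨fun h => absurd h ha, fun h => absurd h he⟩, ?_⟩⟩
        rw [Nat.coprime_comm, (hR r hr).1.coprime_iff_not_dvd]
        intro h
        apply ha
        rw [(ZMod.natCast_eq_zero_iff a r).2 h]
        exact ⟨0, by simp⟩
    · exact ⟨0, fun h => absurd h hr⟩
  choose a ha using hex
  have h56 : 56 ∉ R := by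
    intro h
    have := (hR 56 h).1
    norm_num at this
  set b : ℕ → ℕ := fun r => if r = 56 then 1 else a r with hb
  have hpp : Set.Pairwise (↑(insert 56 R) : Set ℕ) (Function.onFun Nat.Coprime (fun r : ℕ => r)) := by
    intro x hx y hy hxy
    simp only [Finset.coe_insert, Set.mem_insert_iff, Finset.mem_coe] at hx hy
    show Nat.Coprime x y
    have h561 : ∀ r ∈ R, Nat.Coprime 56 r := by
      intro r hr
      obtain ⟨h1, h2, h3⟩ := hR r hr
      rw [Nat.coprime_comm, h1.coprime_iff_not_dvd]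
      intro h
      have h4 : r ∣ 2 ^ 3 * 7 := by norm_num; exact h
      rcases (Nat.Prime.dvd_mul h1).1 h4 with h5 | h5
      · exact h2 ((Nat.prime_dvd_prime_iff_eq h1 Nat.prime_two).1 (h1.dvd_of_dvd_pow h5))
      · exact h3 ((Nat.prime_dvd_prime_iff_eq h1 (by norm_num)).1 h5)
    rcases hx with rfl | hx <;> rcases hy with rfl | hy
    · exact absurd rfl hxy
    · exact h561 y hy
    · exact (h561 x hx).symm
    · exact (Nat.coprime_primes (hR x hx).1 (hR y hy).1).2 hxy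
  have hne : ∀ i ∈ insert 56 R, (fun r : ℕ => r) i ≠ 0 := by
    intro i hi
    rw [Finset.mem_insert] at hi
    rcases hi with rfl | hi
    · norm_num
    · exact (hR i hi).1.ne_zero
  obtain ⟨k, hk⟩ := Nat.chineseRemainderOfFinset b (fun r => r) (insert 56 R) hne hpp
  set M := 56 * ∏ r ∈ R, r with hM
  have hM0 : M ≠ 0 := Nat.mul_ne_zero (by norm_num)
    (Finset.prod_ne_zero_iff.2 fun r hr => (hR r hr).1.ne_zero)
  have hk56 : k ≡ 1 [MOD 56] := by
    have := hk 56 (Finset.mem_insert_self _ _)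
    simpa [hb] using this
  have hkr : ∀ r ∈ R, k ≡ a r [MOD r] := by
    intro r hr
    have h1 := hk r (Finset.mem_insert_of_mem hr)
    have h2 : r ≠ 56 := by rintro rfl; exact h56 hr
    simpa [hb, h2] using h1
  have hkM : Nat.Coprime k M := by
    rw [hM]
    apply Nat.Coprime.mul_right
    · have h1 : Nat.gcd k 56 = Nat.gcd 1 56 := hk56.gcd_eq
      show Nat.gcd k 56 = 1
      rw [h1]; norm_num
    · apply Nat.Coprime.prod_right
      intro r hr
      show Nat.gcd k r = 1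
      rw [(hkr r hr).gcd_eq]
      exact (ha r hr).2
  obtain ⟨p, hpB, hp, hpk⟩ := Nat.forall_exists_prime_gt_and_modEq (max B (M + 7)) hM0 hkM
  have hpB1 : B < p := lt_of_le_of_lt (le_max_left _ _) hpB
  have hpM : M + 7 < p := lt_of_le_of_lt (le_max_right _ _) hpB
  have hp56 : p ≡ 1 [MOD 56] := (hpk.of_dvd ⟨∏ r ∈ R, r, hM⟩).trans hk56
  haveI : Fact p.Prime := ⟨hp⟩
  refine ⟨p, hpB1, hp, ?_, ?_⟩
  · have := hp56
    unfold Nat.ModEq at this
    omega
  · intro r hr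
    haveI : Fact r.Prime := ⟨(hR r hr).1⟩
    have hpr : p ≡ a r [MOD r] :=
      (hpk.of_dvd (((Finset.dvd_prod_of_mem (fun r => r) hr)).mul_left 56)).trans (hkr r hr)
    have hp4 : p % 4 = 1 := by
      have := hp56
      unfold Nat.ModEq at this
      omega
    rw [ZMod.exists_sq_eq_prime_iff_of_mod_four_eq_one hp4 (hR r hr).2.1]
    have h1 : (p : ZMod r) = (a r : ZMod r) := (ZMod.natCast_eq_natCast_iff _ _ _).2 hpr
    rw [h1]
    exact (ha r hr).1

/-- a large prime for which `2` and `-7` are not squares -/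
theorem exists_prime_inert (B : ℕ) : ∃ p, B < p ∧ p.Prime ∧ p % 56 = 5 := by
  obtain ⟨p, hpB, hp, hpk⟩ := Nat.forall_exists_prime_gt_and_modEq B (q := 56) (a := 5)
    (by norm_num) (by norm_num)
  refine ⟨p, hpB, hp, ?_⟩
  unfold Nat.ModEq at hpk
  omega

end Q283.TW
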