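import Mathlib

/-!
# Bordered symmetric matrices over the field with two elements
-/

set_option autoImplicit false

namespace Q283.TW

open Finset Matrix

section
variable {n : Type} [Fintype n] [DecidableEq n]

/-- the matrix `A` with `v` added to the diagonal, bordered by `v` and the corner `d` -/
def bord (A : Matrix n n (ZMod 2)) (v : n → ZMod 2) (d : ZMod 2) :
    Matrix (n ⊕ Unit) (n ⊕ Unit) (ZMod 2) :=
  Matrix.fromBlocks (A + Matrix.diagonal v) (Matrix.of fun i _ => v i) (Matrix.of fun _ j => v j)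
    (Matrix.of fun _ _ => d)

theorem sum_zmod2 (f : ZMod 2 → ZMod 2) : ∑ a, f a = f 0 + f 1 := by
  have : (Finset.univ : Finset (ZMod 2)) = {0, 1} := by decide
  rw [this, Finset.sum_pair (by decide)]

/-- the sum of all determinants with modified diagonals is `1` -/
theorem sum_det (A : Matrix n n (ZMod 2)) :
    ∑ v : n → ZMod 2, (A + Matrix.diagonal v).det = 1 := by
  have h1 : ∀ v : n → ZMod 2, (A + Matrix.diagonal v).det =
      ∑ σ : Equiv.Perm n, Equiv.Perm.sign σ • ∏ i, (A (σ i) i + if σ i = i then v i else 0) := by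
    intro v
    rw [Matrix.det_apply]
    refine Finset.sum_congr rfl fun σ _ => ?_
    congr 1
    refine Finset.prod_congr rfl fun i _ => ?_
    rw [Matrix.add_apply, Matrix.diagonal_apply]
    by_cases h : σ i = i
    · rw [if_pos h, if_pos h, h]
    · rw [if_neg h, if_neg h]
  simp_rw [h1]
  rw [Finset.sum_comm]
  have h2 : ∀ σ : Equiv.Perm n, ∑ v : n → ZMod 2, Equiv.Perm.sign σ •
      ∏ i, (A (σ i) i + if σ i = i then v i else 0) = if σ = 1 then 1 else 0 := by
    intro σ
    rw [← Finset.smul_sum]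
    have h3 : ∑ v : n → ZMod 2, ∏ i, (A (σ i) i + if σ i = i then v i else 0) =
        ∏ i, ∑ a : ZMod 2, (A (σ i) i + if σ i = i then a else 0) := by
      rw [Finset.prod_univ_sum]
      rw [← Fintype.piFinset_univ]
    rw [h3]
    by_cases h : σ = 1
    · subst h
      rw [if_pos rfl, Equiv.Perm.sign_one, one_smul]
      apply Finset.prod_eq_one
      intro i _
      rw [sum_zmod2]
      simp only [Equiv.Perm.one_apply, if_true]
      have : ∀ x : ZMod 2, x + 0 + (x + 1) = 1 := by decide
      exact this _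
    · rw [if_neg h]
      obtain ⟨i, hi⟩ : ∃ i, σ i ≠ i := by
        by_contra hc
        push Not at hc
        exact h (Equiv.ext hc)
      rw [Finset.prod_eq_zero (Finset.mem_univ i), smul_zero]
      rw [sum_zmod2, if_neg hi, if_neg hi]
      have : ∀ x : ZMod 2, x + 0 + (x + 0) = 0 := by decide
      exact this _
  simp_rw [h2]
  simp

theorem exists_diag (A : Matrix n n (ZMod 2)) : ∃ v : n → ZMod 2, (A + Matrix.diagonal v).det ≠ 0 := by
  by_contra hc
  push Not at hc
  have h := sum_det A
  simp_rw [hc] at h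
  simp at h

/-- every matrix has a nonsingular bordering -/
theorem exists_bord (A : Matrix n n (ZMod 2)) : ∃ (v : n → ZMod 2) (d : ZMod 2),
    (bord A v d).det ≠ 0 := by
  obtain ⟨v, hv⟩ := exists_diag A
  have hu : IsUnit (A + Matrix.diagonal v).det := Ne.isUnit hv
  letI : Invertible (A + Matrix.diagonal v) := Matrix.invertibleOfIsUnitDet _ hu
  set c : ZMod 2 := ((Matrix.of fun (_ : Unit) (j : n) => v j) * ⅟(A + Matrix.diagonal v) *
    (Matrix.of fun (i : n) (_ : Unit) => v i)) () () with hc
  refine ⟨v, 1 + c, ?_⟩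
  unfold bord
  rw [Matrix.det_fromBlocks₁₁]
  refine mul_ne_zero hv ?_
  rw [Matrix.det_unique]
  simp only [Matrix.sub_apply, Matrix.of_apply]
  have : (default : Unit) = () := rfl
  rw [this, ← hc]
  have : 1 + c - c = 1 := by ring
  rw [this]
  exact one_ne_zero

/-- the proportion of the nonsingular borderings -/
noncomputable def prop (A : Matrix n n (ZMod 2)) : ℝ :=
  (Nat.card {x : (n → ZMod 2) × ZMod 2 // (bord A x.1 x.2).det ≠ 0} : ℝ) /
    2 ^ (Fintype.card n + 1)

theorem prop_pos (A : Matrix n n (ZMod 2)) : 0 < prop A := by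
  unfold prop
  obtain ⟨v, d, h⟩ := exists_bord A
  have : Nonempty {x : (n → ZMod 2) × ZMod 2 // (bord A x.1 x.2).det ≠ 0} := ⟨⟨(v, d), h⟩⟩
  have h1 : 0 < Nat.card {x : (n → ZMod 2) × ZMod 2 // (bord A x.1 x.2).det ≠ 0} := Nat.card_pos
  positivity

theorem card_pairs : Nat.card ((n → ZMod 2) × ZMod 2) = 2 ^ (Fintype.card n + 1) := by
  rw [Nat.card_eq_fintype_card, Fintype.card_prod, Fintype.card_fun, ZMod.card, pow_succ]

end

end Q283.TW
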