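import Pool.Agent.Q283.TW.Dens
import Pool.Agent.Q283.TW.Frob
import Pool.Agent.Q283.TW.Field
import Pool.Agent.Q283.TW.Arith
import Pool.Agent.Q283.TW.Bord

/-!
# The density of the split primes with a nonsingular bordered matrix
-/

set_option autoImplicit false
set_option linter.style.haveILetI false

namespace Q283.TW

open NumberField Filter Topology Finset Pool.Agent.W401.Cheb
open Pool.Agent.Y700 (Rt)

open scoped Classical in
/-- the quadratic symbol `(r / p)`, additively -/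
noncomputable def nrp (p r : ℕ) : ZMod 2 := if IsSquare (r : ZMod p) then 0 else 1

open scoped Classical in
/-- the symbol `x (p)` -/
noncomputable def xp1 (p : ℕ) : ZMod 2 := if Rt p 1 then 1 else 0

section
variable {L : Type} [Field L] [NumberField L] [IsGalois ℚ L]

open scoped Classical in
/-- the sign of an automorphism at an element -/
noncomputable def ng (g : Gal(L/ℚ)) (x : L) : ZMod 2 := if g x = x then 0 else 1

theorem ng_mul (g h : Gal(L/ℚ)) {x : L} (hx : x ≠ 0) (hg : g x = x ∨ g x = -x)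
    (hh : h x = x ∨ h x = -x) : ng (g * h) x = ng g x + ng h x := by
  have hne : -x ≠ x := by
    intro h0
    apply hx
    have : (2 : L) * x = 0 := by linear_combination -h0
    rcases mul_eq_zero.1 this with h5 | h5
    · norm_num at h5
    · exact h5
  have hm : (g * h) x = g (h x) := rfl
  unfold ng
  rw [hm]
  rcases hg with hg | hg <;> rcases hh with hh | hh
  · rw [hh, hg]; simp
  · rw [hh, map_neg, hg, if_neg hne, if_pos rfl, zero_add]
  · rw [hh, hg, if_neg hne, if_pos rfl, add_zero]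
  · rw [hh, map_neg, hg, neg_neg, if_pos rfl, if_neg hne]; decide

theorem mul_pm (g h : Gal(L/ℚ)) {x : L} (hg : g x = x ∨ g x = -x)
    (hh : h x = x ∨ h x = -x) : (g * h) x = x ∨ (g * h) x = -x := by
  have hm : (g * h) x = g (h x) := rfl
  rw [hm]
  rcases hh with hh | hh
  · rw [hh]; exact hg
  · rw [hh, map_neg]
    rcases hg with hg | hg
    · right; rw [hg]
    · left; rw [hg, neg_neg]

/-- the data -/
structure Dat (L : Type) [Field L] [NumberField L] [IsGalois ℚ L] (R : Finset ℕ) where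
  s : ℤ → L
  θ : L
  hθ : θ ^ 4 - θ ^ 2 + 2 = 0
  h1 : (s (-1)) ^ 2 = ((-1 : ℤ) : L)
  h2 : (s 2) ^ 2 = ((2 : ℤ) : L)
  h7 : (s (-7)) ^ 2 = ((-7 : ℤ) : L)
  hr : ∀ r ∈ R, (s (r : ℤ)) ^ 2 = (((r : ℕ) : ℤ) : L)

variable {R : Finset ℕ} (E : Dat L R)

theorem Dat.θ0 : E.θ ≠ 0 := by
  intro h
  have := E.hθ
  rw [h] at this
  norm_num at this

/-- the subgroup of the automorphisms fixing `√-1`, `√2`, `√-7` -/
def Dat.G0 : Subgroup Gal(L/ℚ) where
  carrier := {g | g (E.s (-1)) = E.s (-1) ∧ g (E.s 2) = E.s 2 ∧ g (E.s (-7)) = E.s (-7)}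
  mul_mem' := by
    rintro a b ⟨a1, a2, a3⟩ ⟨b1, b2, b3⟩
    refine ⟨?_, ?_, ?_⟩
    · show a (b _) = _; rw [b1, a1]
    · show a (b _) = _; rw [b2, a2]
    · show a (b _) = _; rw [b3, a3]
  one_mem' := ⟨rfl, rfl, rfl⟩
  inv_mem' := by
    rintro a ⟨a1, a2, a3⟩
    refine ⟨?_, ?_, ?_⟩
    · have := congrArg (a⁻¹ : Gal(L/ℚ)) a1
      rw [← AlgEquiv.mul_apply, inv_mul_cancel, AlgEquiv.one_apply] at this
      exact this.symm
    · have := congrArg (a⁻¹ : Gal(L/ℚ)) a2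
      rw [← AlgEquiv.mul_apply, inv_mul_cancel, AlgEquiv.one_apply] at this
      exact this.symm
    · have := congrArg (a⁻¹ : Gal(L/ℚ)) a3
      rw [← AlgEquiv.mul_apply, inv_mul_cancel, AlgEquiv.one_apply] at this
      exact this.symm

theorem Dat.mem_G0 {g : Gal(L/ℚ)} : g ∈ E.G0 ↔
    g (E.s (-1)) = E.s (-1) ∧ g (E.s 2) = E.s 2 ∧ g (E.s (-7)) = E.s (-7) := Iff.rfl

theorem Dat.hθpm {g : Gal(L/ℚ)} (hg : g ∈ E.G0) : g E.θ = E.θ ∨ g E.θ = -E.θ :=
  gal_theta g E.hθ (by rw [E.h7]; norm_num) (E.mem_G0.1 hg).2.2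

variable (hR : ∀ r ∈ R, r.Prime ∧ r ≠ 2 ∧ r ≠ 7)

include hR in
theorem Dat.s0 {r : ℕ} (h : r ∈ R) : E.s (r : ℤ) ≠ 0 := by
  intro h0
  have h1 := E.hr r h
  rw [h0, zero_pow (by norm_num)] at h1
  have h2 : ((r : ℕ) : L) = 0 := by exact_mod_cast h1.symm
  exact (hR r h).1.ne_zero (by exact_mod_cast h2)

/-- the corner -/
noncomputable def Dat.dg (g : Gal(L/ℚ)) : ZMod 2 := ∑ r ∈ R, ng g (E.s (r : ℤ)) + ng g E.θ

/-- the homomorphism to the symbols -/
noncomputable def Dat.Ψ {S : Finset ℕ} (hS : S ⊆ R) :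
    E.G0 →* Multiplicative ((S → ZMod 2) × ZMod 2) where
  toFun g := Multiplicative.ofAdd (fun q : S => ng g.1 (E.s ((q : ℕ) : ℤ)), E.dg g.1)
  map_one' := by
    have h : ∀ x : L, ng (1 : Gal(L/ℚ)) x = 0 := fun x => by unfold ng; simp
    rw [← ofAdd_zero]
    congr 1
    unfold Dat.dg
    simp [h]
    rfl
  map_mul' g h := by
    rw [← ofAdd_add]
    congr 1
    have hr : ∀ r ∈ R, ng (g.1 * h.1) (E.s (r : ℤ)) = ng g.1 (E.s (r : ℤ)) + ng h.1 (E.s (r : ℤ)) :=
      fun r hr => ng_mul _ _ (E.s0 hR hr) (gal_sqrt g.1 (E.hr r hr)) (gal_sqrt h.1 (E.hr r hr))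
    refine Prod.ext ?_ ?_
    · funext q
      exact hr q (hS q.2)
    · show E.dg (g.1 * h.1) = E.dg g.1 + E.dg h.1
      unfold Dat.dg
      rw [Finset.sum_congr rfl hr, Finset.sum_add_distrib,
        ng_mul _ _ E.θ0 (E.hθpm g.2) (E.hθpm h.2)]
      ring

end

end Q283.TW
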