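import Pool.Agent.Q283.TW.Gal

/-!
# The density of the split primes with a nonsingular bordered matrix (end)
-/

set_option autoImplicit false
set_option linter.style.haveILetI false

namespace Q283.TW

open NumberField Filter Topology Finset Pool.Agent.W401.Cheb
open Pool.Agent.Y700 (Rt)

section
variable {L : Type} [Field L] [NumberField L] [IsGalois ℚ L] {R : Finset ℕ} (E : Dat L R)
  (hR : ∀ r ∈ R, r.Prime ∧ r ≠ 2 ∧ r ≠ 7)

theorem ne_zero_of {p : ℕ} [hp : Fact p.Prime] {q : ℕ} (hq : q.Prime) (h : p ≠ q) :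
    ((q : ℤ) : ZMod p) ≠ 0 := by
  intro h0
  rw [ZMod.intCast_zmod_eq_zero_iff_dvd] at h0
  have h1 : p ∣ q := by exact_mod_cast h0
  exact h ((Nat.prime_dvd_prime_iff_eq hp.out hq).1 h1)

include hR in
theorem Dat.frob_facts {p : ℕ} [hp : Fact p.Prime] (h2 : p ≠ 2) (h7 : p ≠ 7) (hpR : p ∉ R)
    {φ : 𝓞 L →+* AlgebraicClosure (ZMod p)} {g : Gal(L/ℚ)} (hφ : HasFrob p φ g) :
    (Spl p ↔ g ∈ E.G0) ∧ (∀ r ∈ R, nrp p r = ng g (E.s (r : ℤ))) ∧
      (Spl p → xp1 p = ng g E.θ) := by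
  have f1 := frob_sqrt hφ E.h1 h2 (by push_cast; simp)
  have f2 := frob_sqrt hφ E.h2 h2 (ne_zero_of Nat.prime_two h2)
  have f7 := frob_sqrt hφ E.h7 h2 (by
    have := ne_zero_of (p := p) (q := 7) (by norm_num) h7
    push_cast at this ⊢
    exact neg_ne_zero.2 this)
  push_cast at f1 f2 f7
  have hspl : Spl p ↔ g ∈ E.G0 := by
    rw [spl_iff p h2 h7, E.mem_G0, f1, f2, f7]
  refine ⟨hspl, ?_, ?_⟩
  · intro r hr
    have hrp : p ≠ r := by rintro rfl; exact hpR hr
    have f := frob_sqrt hφ (E.hr r hr) h2 (ne_zero_of (hR r hr).1 hrp)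
    unfold nrp ng
    have e : ((((r : ℕ) : ℤ)) : ZMod p) = (r : ZMod p) := by push_cast; rfl
    rw [e] at f
    by_cases hc : IsSquare (r : ZMod p)
    · rw [if_pos hc, if_pos (f.1 hc)]
    · rw [if_neg hc, if_neg (fun h => hc (f.2 h))]
  · intro hs
    have hg := hspl.1 hs
    have f := frob_theta hφ E.hθ (s := E.s (-7)) (by rw [E.h7]; norm_num) (E.mem_G0.1 hg).2.2 h2
      (f2.2 (E.mem_G0.1 hg).2.1)
    unfold xp1 ng
    by_cases hc : Rt p 1
    · rw [if_pos hc, if_neg]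
      intro h3
      have h4 := f.1 hc
      rw [h3] at h4
      apply E.θ0
      have : (2 : L) * E.θ = 0 := by linear_combination h4
      rcases mul_eq_zero.1 this with h5 | h5
      · norm_num at h5
      · exact h5
    · rw [if_neg hc, if_pos]
      rcases E.hθpm hg with h3 | h3
      · exact h3
      · exact absurd (f.2 h3) hc

theorem good_of_large {D : ℕ} {p : ℕ} (h : D + 7 + ∑ r ∈ R, r < p) : p ≠ 2 ∧ p ≠ 7 ∧ p ∉ R ∧
    (0 < D → ¬ p ∣ D) := by
  refine ⟨by omega, by omega, ?_, ?_⟩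
  · intro hp
    have := Finset.single_le_sum (f := fun r => r) (fun i _ => Nat.zero_le i) hp
    omega
  · intro hD hd
    have := Nat.le_of_dvd hD hd
    omega

/-- an automorphism fixing all the square roots and changing the sign of `θ` -/
theorem Dat.exists_flip : ∃ h ∈ E.G0, (∀ r ∈ R, h (E.s (r : ℤ)) = E.s (r : ℤ)) ∧
    h E.θ = -E.θ := by
  obtain ⟨D₁, hD₁, htor⟩ := torsor L
  obtain ⟨p, hpB, hp, hp5⟩ := exists_prime_inert (D₁ + 7 + ∑ r ∈ R, r)
  obtain ⟨h2, h7, hpR, hpD⟩ := good_of_large hpB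
  haveI : Fact p.Prime := ⟨hp⟩
  have ht := htor p (hpD hD₁)
  obtain ⟨φ⟩ := nonempty_hom ht
  obtain ⟨k, hk⟩ := exists_frob ht φ
  have f2 := frob_sqrt hk E.h2 h2 (ne_zero_of Nat.prime_two h2)
  have f7 := frob_sqrt hk E.h7 h2 (by
    have := ne_zero_of (p := p) (q := 7) (by norm_num) h7
    push_cast at this ⊢
    exact neg_ne_zero.2 this)
  push_cast at f2 f7
  have n2 : k (E.s 2) = -E.s 2 := by
    rcases gal_sqrt k E.h2 with h | h
    · exfalso
      have := f2.2 h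
      rw [ZMod.exists_sq_eq_two_iff h2] at this
      omega
    · exact h
  have n7 : k (E.s (-7)) = -E.s (-7) := by
    rcases gal_sqrt k E.h7 with h | h
    · exfalso
      have := f7.2 h
      rw [neg7_iff p h2 h7] at this
      omega
    · exact h
  have hsq : ∀ (a : ℤ), (E.s a) ^ 2 = ((a : ℤ) : L) → (k * k) (E.s a) = E.s a := by
    intro a ha
    show k (k (E.s a)) = E.s a
    rcases gal_sqrt k ha with h | h
    · rw [h, h]
    · rw [h, map_neg, h, neg_neg]
  refine ⟨k * k, ⟨hsq _ E.h1, hsq _ E.h2, hsq _ E.h7⟩, fun r hr => hsq _ (E.hr r hr), ?_⟩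
  show k (k E.θ) = -E.θ
  have hθ := E.hθ
  have h1 : (2 * E.θ ^ 2 - 1) ^ 2 = (E.s (-7)) ^ 2 := by
    rw [E.h7]; push_cast; linear_combination 4 * hθ
  have h3 : k (2 * E.θ ^ 2 - 1) = -(2 * E.θ ^ 2 - 1) := by
    rcases sq_eq_sq_iff_eq_or_eq_neg.1 h1 with h | h
    · rw [h, n7]
    · rw [h, map_neg, n7]
  have h4 : (k E.θ) ^ 2 = 1 - E.θ ^ 2 := by
    rw [map_sub, map_mul, map_pow, map_one, map_ofNat] at h3
    have h5 : (2 : L) * ((k E.θ) ^ 2 - (1 - E.θ ^ 2)) = 0 := by linear_combination h3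
    rcases mul_eq_zero.1 h5 with h6 | h6
    · norm_num at h6
    · linear_combination h6
  have h5 : (E.θ * k E.θ) ^ 2 = (E.s 2) ^ 2 := by
    rw [mul_pow, h4, E.h2]; push_cast; linear_combination -hθ
  have h6 : k (E.θ * k E.θ) = -(E.θ * k E.θ) := by
    rcases sq_eq_sq_iff_eq_or_eq_neg.1 h5 with h | h
    · rw [h, n2]
    · rw [h, map_neg, n2]
  rw [map_mul] at h6
  have hk0 : k E.θ ≠ 0 := by
    rw [Ne, map_eq_zero_iff k k.injective]; exact E.θ0
  have h7 : k E.θ * (k (k E.θ) + E.θ) = 0 := by linear_combination h6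
  rcases mul_eq_zero.1 h7 with h8 | h8
  · exact absurd h8 hk0
  · linear_combination h8

theorem Dat.surj {S : Finset ℕ} (hS : S ⊆ R) : Function.Surjective (E.Ψ hR hS) := by
  classical
  intro x
  obtain ⟨v, d⟩ := x
  -- first the symbols
  obtain ⟨D₁, hD₁, htor⟩ := torsor L
  obtain ⟨p, hpB, hp, hp1, hε⟩ := exists_prime_symbols R hR (fun r => ∀ h : r ∈ S, v ⟨r, h⟩ = 0)
    (D₁ + 7 + ∑ r ∈ R, r)
  obtain ⟨h2, h7, hpR, hpD⟩ := good_of_large hpB
  haveI : Fact p.Prime := ⟨hp⟩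
  have ht := htor p (hpD hD₁)
  obtain ⟨φ⟩ := nonempty_hom ht
  obtain ⟨g, hg⟩ := exists_frob ht φ
  obtain ⟨f1, f2, f3⟩ := E.frob_facts hR h2 h7 hpR hg
  have hspl : Spl p := ⟨hp, by omega, by omega⟩
  have hgG := f1.1 hspl
  have hgv : ∀ q : S, ng g (E.s ((q : ℕ) : ℤ)) = v q := by
    intro q
    rw [← f2 q (hS q.2)]
    unfold nrp
    have h01 : ∀ x : ZMod 2, x = 0 ∨ x = 1 := by decide
    rcases h01 (v q) with h | h
    · rw [if_pos, h]
      rw [hε q (hS q.2)]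
      intro _
      exact h
    · rw [if_neg, h]
      rw [hε q (hS q.2)]
      intro hc
      have := hc q.2
      rw [show (⟨(q : ℕ), q.2⟩ : S) = q from rfl, h] at this
      exact one_ne_zero this
  by_cases hd : E.dg g = d
  · refine ⟨⟨g, hgG⟩, ?_⟩
    show Multiplicative.ofAdd (fun q : S => ng g (E.s ((q : ℕ) : ℤ)), E.dg g) = _
    rw [hd]
    have : (fun q : S => ng g (E.s ((q : ℕ) : ℤ))) = v := funext hgv
    rw [this]
    rfl
  · obtain ⟨h, hhG, hh1, hh2⟩ := E.exists_flip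
    have hfl : E.Ψ hR hS ⟨h, hhG⟩ = Multiplicative.ofAdd ((0 : S → ZMod 2), (1 : ZMod 2)) := by
      show Multiplicative.ofAdd (fun q : S => ng h (E.s ((q : ℕ) : ℤ)), E.dg h) = _
      have e1 : (fun q : S => ng h (E.s ((q : ℕ) : ℤ))) = 0 := by
        funext q
        unfold ng
        rw [if_pos (hh1 q (hS q.2))]
        rfl
      have e2 : E.dg h = 1 := by
        unfold Dat.dg
        have e3 : ∑ r ∈ R, ng h (E.s (r : ℤ)) = 0 := by
          apply Finset.sum_eq_zero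
          intro r hr
          unfold ng
          rw [if_pos (hh1 r hr)]
        rw [e3, zero_add]
        unfold ng
        rw [if_neg]
        rw [hh2]
        intro h3
        apply E.θ0
        have : (2 : L) * E.θ = 0 := by linear_combination -h3
        rcases mul_eq_zero.1 this with h5 | h5
        · norm_num at h5
        · exact h5
      rw [e1, e2]
    refine ⟨⟨g, hgG⟩ * ⟨h, hhG⟩, ?_⟩
    rw [map_mul, hfl]
    show Multiplicative.ofAdd (fun q : S => ng g (E.s ((q : ℕ) : ℤ)), E.dg g) * _ = _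
    rw [← ofAdd_add]
    have e4 : (fun q : S => ng g (E.s ((q : ℕ) : ℤ))) = v := funext hgv
    have e5 : E.dg g + 1 = d := by
      have : ∀ x y : ZMod 2, x ≠ y → x + 1 = y := by decide
      exact this _ _ hd
    have e6 : ((fun q : S => ng g (E.s ((q : ℕ) : ℤ))), E.dg g) + ((0 : S → ZMod 2), (1 : ZMod 2))
        = (v, d) := by
      rw [Prod.mk_add_mk, e4, e5, add_zero]
    rw [e6]
    rfl

theorem Dat.ratio {S : Finset ℕ} (hS : S ⊆ R) (P : (S → ZMod 2) × ZMod 2 → Prop) :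
    (Nat.card {g : E.G0 // P (Multiplicative.toAdd (E.Ψ hR hS g))} : ℝ) / (Nat.card E.G0 : ℝ) =
      (Nat.card {x : (S → ZMod 2) × ZMod 2 // P x} : ℝ) / 2 ^ (Fintype.card S + 1) := by
  have hsur := E.surj hR hS
  have h1 := card_fib (E.Ψ hR hS) (fun b => P (Multiplicative.toAdd b)) (fun b _ => hsur b)
  have h2 := card_fib (E.Ψ hR hS) (fun _ => True) (fun b _ => hsur b)
  have h3 : Nat.card {a : E.G0 // True} = Nat.card E.G0 :=
    Nat.card_congr (Equiv.subtypeUnivEquiv fun _ => trivial)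
  have h4 : Nat.card {b : Multiplicative ((S → ZMod 2) × ZMod 2) // True} =
      2 ^ (Fintype.card S + 1) := by
    rw [← card_pairs]
    exact Nat.card_congr (Equiv.subtypeUnivEquiv fun _ => trivial)
  have h5 : Nat.card {b : Multiplicative ((S → ZMod 2) × ZMod 2) // P (Multiplicative.toAdd b)} =
      Nat.card {x : (S → ZMod 2) × ZMod 2 // P x} := rfl
  rw [h3, h4] at h2
  rw [h5] at h1
  rw [h1, h2]
  have hk : 0 < Nat.card (E.Ψ hR hS).ker := Nat.card_pos
  push_cast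
  have hk' : (Nat.card (E.Ψ hR hS).ker : ℝ) ≠ 0 := by positivity
  field_simp

end

open scoped Classical in
/-- **The density of the split primes with a nonsingular bordered matrix.** -/
theorem main_density (R S : Finset ℕ) (hS : S ⊆ R) (hR : ∀ r ∈ R, r.Prime ∧ r ≠ 2 ∧ r ≠ 7)
    (A : Matrix S S (ZMod 2)) (T : ℕ → Prop)
    (hT : ∀ p, Spl p → p ∉ R → (T p ↔ (bord A (fun q : S => nrp p q)
      (∑ r ∈ R, nrp p r + xp1 p)).det ≠ 0)) :
    Tendsto (fun X : ℕ => (((range (X + 1)).filter fun p => Spl p ∧ T p).card : ℝ) /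
      (((range (X + 1)).filter fun p => Spl p).card : ℝ)) atTop (𝓝 (prop A)) := by
  obtain ⟨L, hL, hN, hG, s, θ, hθ, hs⟩ := exists_field
    (({-1, 2, -7} : Finset ℤ) ∪ R.image (fun r : ℕ => (r : ℤ)))
  let E : Dat L R :=
    { s := s
      θ := θ
      hθ := hθ
      h1 := hs _ (by simp)
      h2 := hs _ (by simp)
      h7 := hs _ (by simp)
      hr := fun r hr => hs _ (by simp [hr]) }
  set P : (S → ZMod 2) × ZMod 2 → Prop := fun x => (bord A x.1 x.2).det ≠ 0 with hP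
  set C : Set Gal(L/ℚ) := {g | ∃ h : g ∈ E.G0, P (Multiplicative.toAdd (E.Ψ hR hS ⟨g, h⟩))} with hC
  have hD0 : 0 < 14 * ∏ r ∈ R, r := by
    have : 0 < ∏ r ∈ R, r := Finset.prod_pos fun r hr => (hR r hr).1.pos
    omega
  have hgood : ∀ p : ℕ, p.Prime → ¬ p ∣ 14 * ∏ r ∈ R, r → p ≠ 2 ∧ p ≠ 7 ∧ p ∉ R := by
    intro p hp hpd
    refine ⟨?_, ?_, ?_⟩
    · rintro rfl; exact hpd (Dvd.dvd.mul_right (by norm_num) _)
    · rintro rfl; exact hpd (Dvd.dvd.mul_right (by norm_num) _)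
    · intro h; exact hpd ((Finset.dvd_prod_of_mem (fun r => r) h).mul_left _)
  have d0 := dens_of L (E.G0 : Set Gal(L/ℚ)) Spl (14 * ∏ r ∈ R, r) hD0 (by
    intro p hp hpd φ g hφ
    obtain ⟨h2, h7, hpR⟩ := hgood p hp.out hpd
    exact (E.frob_facts hR h2 h7 hpR hφ).1)
  have d1 := dens_of L C (fun p => Spl p ∧ T p) (14 * ∏ r ∈ R, r) hD0 (by
    intro p hp hpd φ g hφ
    obtain ⟨h2, h7, hpR⟩ := hgood p hp.out hpd
    obtain ⟨f1, f2, f3⟩ := E.frob_facts hR h2 h7 hpR hφ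
    have key : ∀ hsp : Spl p, (T p ↔ P (Multiplicative.toAdd (E.Ψ hR hS ⟨g, f1.1 hsp⟩))) := by
      intro hsp
      rw [hT p hsp hpR]
      have e1 : (fun q : S => nrp p q) = fun q : S => ng g (E.s ((q : ℕ) : ℤ)) := by
        funext q
        exact f2 q (hS q.2)
      have e2 : ∑ r ∈ R, nrp p r + xp1 p = E.dg g := by
        unfold Dat.dg
        rw [f3 hsp, Finset.sum_congr rfl f2]
      rw [e1, e2]
      exact Iff.rfl
    constructor
    · rintro ⟨hsp, hTp⟩
      exact ⟨f1.1 hsp, (key hsp).1 hTp⟩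
    · rintro ⟨hg, hPg⟩
      exact ⟨f1.2 hg, (key (f1.2 hg)).2 hPg⟩)
  have hCcard : Nat.card C = Nat.card {g : E.G0 // P (Multiplicative.toAdd (E.Ψ hR hS g))} := by
    refine Nat.card_congr
      { toFun := fun x => ⟨⟨x.1, x.2.1⟩, x.2.2⟩
        invFun := fun x => ⟨x.1.1, x.1.2, x.2⟩
        left_inv := fun x => rfl
        right_inv := fun x => rfl }
  have hGpos : (0 : ℝ) < Nat.card Gal(L/ℚ) := by
    have := Nat.card_pos (α := Gal(L/ℚ))
    exact_mod_cast this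
  have hG0pos : (0 : ℝ) < Nat.card E.G0 := by
    have := Nat.card_pos (α := E.G0)
    exact_mod_cast this
  have hlim := d1.div d0 (by
    have : (0 : ℝ) < (Nat.card (E.G0 : Set Gal(L/ℚ)) : ℝ) / Nat.card Gal(L/ℚ) :=
      div_pos hG0pos hGpos
    exact this.ne')
  have hval : (Nat.card C : ℝ) / (Nat.card Gal(L/ℚ) : ℝ) /
      ((Nat.card (E.G0 : Set Gal(L/ℚ)) : ℝ) / (Nat.card Gal(L/ℚ) : ℝ)) = prop A := by
    have h1 := E.ratio hR hS P
    have h2 : (Nat.card (E.G0 : Set Gal(L/ℚ)) : ℝ) = Nat.card E.G0 := rfl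
    rw [div_div_div_cancel_right₀ hGpos.ne', hCcard, h2, h1]
    rfl
  rw [hval] at hlim
  refine hlim.congr' ?_
  filter_upwards [eventually_ge_atTop 2] with X hX
  have hpc : (Nat.primeCounting X : ℝ) ≠ 0 := by
    have : Nat.primeCounting X ≠ 0 := by
      rw [Ne, Nat.primeCounting_eq_zero_iff]
      omega
    exact_mod_cast this
  have hcount : ∀ Q : ℕ → Prop, (∀ p, Q p → p.Prime) →
      (∑ p ∈ pr X, if Q p then (1 : ℝ) else 0) = (((range (X + 1)).filter fun p => Q p).card : ℝ) := by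
    intro Q hQ
    rw [Finset.sum_boole]
    congr 2
    ext p
    unfold pr
    rw [mem_filter, mem_filter, mem_filter]
    constructor
    · rintro ⟨⟨h1, -⟩, h2⟩; exact ⟨h1, h2⟩
    · rintro ⟨h1, h2⟩; exact ⟨⟨h1, hQ p h2⟩, h2⟩
  show M _ X / M _ X = _
  unfold M
  rw [hcount _ (fun p h => h.1.1), hcount _ (fun p h => h.1), div_div_div_cancel_right₀ hpc]
  congr

end Q283.TW
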