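import Pool.Agent.Y687.MQ.Fin
import Pool.Agent.Q283.TW.Main

/-!
# The matrix of the twist by `D p` in terms of the matrix of the twist by `D`
-/

set_option autoImplicit false
set_option linter.style.haveILetI false

namespace Q283.TW

open Finset
open Pool.Agent.Y687.MQ (matD SP IP AdmD)
open Pool.Agent.Y700 (Rt)

theorem xp1_eq {p : ℕ} (hp : Spl p) :
    xp1 p = if 8 ∣ Pool.Agent.Y687.NN 1 p then 0 else 1 := by
  have hR := Pool.Agent.Z701.f_RTE p hp ∅ (by simp)
  have e4 : Pool.Agent.Z700.pr ∅ = 1 := by unfold Pool.Agent.Z700.pr; simp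
  rw [e4] at hR
  unfold xp1
  by_cases h8 : 8 ∣ Pool.Agent.Y687.NN 1 p
  · rw [if_pos h8, if_neg (fun h => (hR.1 h) h8)]
  · rw [if_neg h8, if_pos (hR.2 h8)]

section
variable {D : ℤ} {p : ℕ}

theorem natAbs_mul' : (D * (p : ℤ)).natAbs = D.natAbs * p := by
  rw [Int.natAbs_mul, Int.natAbs_natCast]

theorem pf_mul (hD : D ≠ 0) (hp : Spl p) :
    (D * (p : ℤ)).natAbs.primeFactors = insert p D.natAbs.primeFactors := by
  rw [natAbs_mul', Nat.primeFactors_mul (Int.natAbs_ne_zero.2 hD) hp.1.ne_zero,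
    hp.1.primeFactors, Finset.union_comm]
  rfl

theorem admD_mul (h : AdmD D) (hp : Spl p) (hpD : p ∉ D.natAbs.primeFactors) :
    AdmD (D * (p : ℤ)) := by
  obtain ⟨h1, h4, h7, hq⟩ := h
  have hD0 : D ≠ 0 := h1.ne_zero
  have hnd : ¬ p ∣ D.natAbs := fun hd =>
    hpD (Nat.mem_primeFactors.2 ⟨hp.1, hd, Int.natAbs_ne_zero.2 hD0⟩)
  refine ⟨?_, ?_, ?_, ?_⟩
  · rw [← Int.squarefree_natAbs, natAbs_mul', Nat.squarefree_mul]
    · exact ⟨Int.squarefree_natAbs.2 h1, hp.1.prime.squarefree⟩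
    · exact ((Nat.Prime.coprime_iff_not_dvd hp.1).2 hnd).symm
  · have h8 := hp.2.1
    have : (p : ℤ) % 4 = 1 := by omega
    rw [Int.mul_emod, h4, this]; norm_num
  · have h71 := hp.2.2
    have : (p : ℤ) % 7 = 1 ∨ (p : ℤ) % 7 = 2 ∨ (p : ℤ) % 7 = 4 := by omega
    rw [Int.mul_emod]
    rcases h7 with h7 | h7 | h7 <;> rcases this with h | h | h <;> rw [h7, h] <;> norm_num
  · intro q hqp hqd
    have h2 : q ∈ insert p D.natAbs.primeFactors := by
      rw [← pf_mul hD0 hp]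
      exact Nat.mem_primeFactors.2 ⟨hqp, Int.natCast_dvd.1 hqd, Int.natAbs_ne_zero.2
        (mul_ne_zero hD0 (by exact_mod_cast hp.1.ne_zero))⟩
    rcases Finset.mem_insert.1 h2 with rfl | h3
    · refine ⟨?_, Or.inl hp⟩
      have := hp.2.1
      omega
    · exact hq q hqp (Int.natCast_dvd.2 (Nat.dvd_of_mem_primeFactors h3))

theorem SP_mul (hD : D ≠ 0) (hp : Spl p) : SP (D * (p : ℤ)) = insert p (SP D) := by
  unfold SP
  rw [pf_mul hD hp, Finset.filter_insert, if_pos hp.2.1]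

/-- the equivalence of the index sets -/
noncomputable def eqv (hD : D ≠ 0) (hp : Spl p) (hpD : p ∉ D.natAbs.primeFactors) :
    SP D ⊕ Unit ≃ SP (D * (p : ℤ)) := by
  refine Equiv.ofBijective (Sum.elim
    (fun q : SP D => (⟨(q : ℕ), by rw [SP_mul hD hp]; exact Finset.mem_insert_of_mem q.2⟩ :
      SP (D * (p : ℤ))))
    (fun _ : Unit => ⟨p, by rw [SP_mul hD hp]; exact Finset.mem_insert_self _ _⟩)) ⟨?_, ?_⟩
  · have hpS : p ∉ SP D := fun h => hpD (Finset.mem_filter.1 h).1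
    rintro (q | q) (q' | q') h
    · simp only [Sum.elim_inl, Subtype.mk.injEq] at h
      rw [Subtype.ext h]
    · simp only [Sum.elim_inl, Sum.elim_inr, Subtype.mk.injEq] at h
      exact absurd (h ▸ q.2) hpS
    · simp only [Sum.elim_inl, Sum.elim_inr, Subtype.mk.injEq] at h
      exact absurd (h ▸ q'.2) hpS
    · rfl
  · rintro ⟨x, hx⟩
    have hx' := hx
    rw [SP_mul hD hp] at hx'
    rcases Finset.mem_insert.1 hx' with h | h
    · exact ⟨Sum.inr (), Subtype.ext h.symm⟩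
    · exact ⟨Sum.inl ⟨x, h⟩, rfl⟩

theorem eqv_inl (hD : D ≠ 0) (hp : Spl p) (hpD : p ∉ D.natAbs.primeFactors) (q : SP D) :
    ((eqv hD hp hpD (Sum.inl q) : SP (D * (p : ℤ))) : ℕ) = q := rfl

theorem eqv_inr (hD : D ≠ 0) (hp : Spl p) (hpD : p ∉ D.natAbs.primeFactors) (q : Unit) :
    ((eqv hD hp hpD (Sum.inr q) : SP (D * (p : ℤ))) : ℕ) = p := rfl

open Classical in
theorem det_eq (h : AdmD D) (hp : Spl p) (hpD : p ∉ D.natAbs.primeFactors) :
    (matD (D * (p : ℤ))).det = (bord (matD D) (fun q : SP D => nrp p q)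
      (∑ r ∈ D.natAbs.primeFactors, nrp p r + xp1 p)).det := by
  have hD : D ≠ 0 := h.1.ne_zero
  rw [← Matrix.det_submatrix_equiv_self (eqv hD hp hpD) (matD (D * (p : ℤ)))]
  congr 1
  haveI : Fact p.Prime := ⟨hp.1⟩
  have hrec : ∀ q : SP D, (IsSquare (p : ZMod (q : ℕ)) ↔ IsSquare ((q : ℕ) : ZMod p)) := by
    intro q
    have hq := Finset.mem_filter.1 q.2
    haveI : Fact (q : ℕ).Prime := ⟨Nat.prime_of_mem_primeFactors hq.1⟩
    have h8 := hp.2.1
    have hq8 := hq.2
    exact (ZMod.exists_sq_eq_prime_iff_of_mod_four_eq_one (p := p) (q := (q : ℕ)) (by omega)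
      (by omega)).symm
  have hpq : ∀ q : SP D, p ≠ (q : ℕ) := by
    intro q hq
    exact hpD (hq ▸ (Finset.mem_filter.1 q.2).1)
  ext i j
  rw [Matrix.submatrix_apply]
  unfold matD bord
  rw [Matrix.of_apply, pf_mul hD hp]
  rcases i with i | i <;> rcases j with j | j
  · rw [Matrix.fromBlocks_apply₁₁, Matrix.add_apply, Matrix.of_apply, Matrix.diagonal_apply,
      eqv_inl, eqv_inl]
    by_cases hij : i = j
    · subst hij
      rw [if_pos rfl, if_pos rfl, if_pos rfl, Finset.card_filter, Finset.card_filter,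
        Finset.sum_insert hpD]
      unfold nrp
      by_cases hc : IsSquare ((i : ℕ) : ZMod p)
      · have hn : ¬ (p ≠ (i : ℕ) ∧ ¬ IsSquare (p : ZMod (i : ℕ))) := by
          rintro ⟨-, h2⟩
          exact h2 ((hrec i).2 hc)
        rw [if_neg hn, if_pos hc, zero_add, add_zero]
      · have hn : p ≠ (i : ℕ) ∧ ¬ IsSquare (p : ZMod (i : ℕ)) :=
          ⟨hpq i, fun h2 => hc ((hrec i).1 h2)⟩
        rw [if_pos hn, if_neg hc]
        push_cast
        ring
    · rw [if_neg (fun h => hij (Sum.inl_injective ((eqv hD hp hpD).injective h))), if_neg hij,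
        if_neg hij, add_zero]
  · rw [Matrix.fromBlocks_apply₁₂, Matrix.of_apply, eqv_inl, eqv_inr, if_neg]
    · show _ = nrp p i
      unfold nrp
      by_cases hc : IsSquare ((i : ℕ) : ZMod p)
      · rw [if_pos hc, if_pos ((hrec i).2 hc)]
      · rw [if_neg hc, if_neg (fun h2 => hc ((hrec i).1 h2))]
    · intro h
      exact absurd ((eqv hD hp hpD).injective h) (by simp)
  · rw [Matrix.fromBlocks_apply₂₁, Matrix.of_apply, eqv_inl, eqv_inr, if_neg]
    · rfl
    · intro h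
      exact absurd ((eqv hD hp hpD).injective h) (by simp)
  · rw [Matrix.fromBlocks_apply₂₂, Matrix.of_apply, eqv_inr, if_pos (by rfl), Finset.card_filter,
      Finset.sum_insert hpD, if_neg (fun h => h.1 rfl), zero_add, ← xp1_eq hp]
    congr 1
    push_cast
    refine Finset.sum_congr rfl fun r hr => ?_
    have hrp : r ≠ p := by rintro rfl; exact hpD hr
    unfold nrp
    by_cases hc : IsSquare (r : ZMod p)
    · rw [if_pos hc, if_neg (fun h => h.2 hc)]
    · rw [if_neg hc, if_pos ⟨hrp, hc⟩]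

end

end Q283.TW
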