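import Pool.Agent.Q283.TW.MatD

/-!
# The density of the prime twists
-/

set_option autoImplicit false

namespace Q283.TW

open Finset Filter Topology
open Pool.Agent.Y687.MQ (matD SP IP AdmD)

theorem points_iff {p : ℕ} (hp : Spl p) :
    (8 ∣ Nat.card {q : ZMod p × ZMod p // q.2 ^ 2 = q.1 ^ 3 + 5805 * q.1 - 285714} + 1) ↔
      8 ∣ Pool.Agent.Y687.NN 1 p := by
  have h1 := Pool.Agent.Y655.Z7.t_RTE p hp.1 hp.2.1 hp.2.2
  have hR := Pool.Agent.Z701.f_RTE p hp ∅ (by simp)
  have e4 : Pool.Agent.Z700.pr ∅ = 1 := by unfold Pool.Agent.Z700.pr; simp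
  rw [e4] at hR
  have h2 := h1.symm.trans hR
  unfold Pool.Agent.Z700.NE at h2
  exact not_iff_not.1 h2

open scoped Classical in
/-- **The density.** -/
theorem twist_density {D : ℤ} (hD : AdmD D) (T : ℕ → Prop)
    (hT : ∀ p, Spl p → p ∉ D.natAbs.primeFactors → (T p ↔ (matD (D * (p : ℤ))).det ≠ 0)) :
    Tendsto (fun X : ℕ => (((range (X + 1)).filter fun p => Spl p ∧ T p).card : ℝ) /
      (((range (X + 1)).filter fun p => Spl p).card : ℝ)) atTop (𝓝 (prop (matD D))) := by
  refine main_density D.natAbs.primeFactors (SP D) (Finset.filter_subset _ _) ?_ (matD D) T ?_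
  · intro r hr
    have h1 := hD.2.2.2 r (Nat.prime_of_mem_primeFactors hr)
      (Int.natCast_dvd.2 (Nat.dvd_of_mem_primeFactors hr))
    refine ⟨Nat.prime_of_mem_primeFactors hr, ?_, ?_⟩
    · rintro rfl
      rcases h1.2 with h | h
      · have := h.2.1; omega
      · have := h.2.1; omega
    · rintro rfl
      rcases h1.2 with h | h
      · have := h.2.2; omega
      · have := h.2.2; omega
  · intro p hp hpD
    rw [hT p hp hpD, det_eq hD hp hpD]

end Q283.TW
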